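import Pool.Agent.helper32.QS.Spec

set_option autoImplicit false

namespace QS

open scoped BigOperators commutatorElement

/-- key: the commutator pairing on `X × Y` with values in a subgroup `A` embedded in `kˣ`. -/
theorem DU_key (hHOM : HOM_stmt) (k H : Type) [Field k] [Group H] [Finite H]
    (A X Y N M : Subgroup H) (sc : A →* kˣ) (hsc : Function.Injective sc)
    (hXY : ∀ x ∈ X, ∀ y ∈ Y, ⁅x, y⁆ ∈ A)
    (hAX : ∀ a ∈ A, ∀ x ∈ X, a * x = x * a) (hAY : ∀ a ∈ A, ∀ y ∈ Y, a * y = y * a)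
    (hN : N ≤ Y) (hNX : ∀ x ∈ X, ∀ n ∈ N, x * n = n * x)
    (hYY : ∀ y ∈ Y, ∀ y' ∈ Y, ⁅y, y'⁆ ∈ N)
    (hM : ∀ x ∈ X, x ∈ M ↔ ∀ y ∈ Y, x * y = y * x) :
    M.relIndex X ≤ N.relIndex Y := by
  -- bimultiplicativity
  have hl : ∀ x ∈ X, ∀ x' ∈ X, ∀ y ∈ Y, ⁅x * x', y⁆ = ⁅x, y⁆ * ⁅x', y⁆ := by
    intro x hx x' hx' y hy
    have h1 : ⁅x * x', y⁆ = x * ⁅x', y⁆ * x⁻¹ * ⁅x, y⁆ := by
      simp only [commutatorElement_def]
      group
    have h2 : x * ⁅x', y⁆ * x⁻¹ = ⁅x', y⁆ := by
      rw [← hAX _ (hXY x' hx' y hy) x hx]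
      group
    rw [h1, h2]
    have h3 : ∀ a ∈ A, ∀ b ∈ A, a * b = b * a := by
      intro a ha b hb
      have h4 : sc (⟨a, ha⟩ * ⟨b, hb⟩) = sc (⟨b, hb⟩ * ⟨a, ha⟩) := by
        rw [map_mul, map_mul, mul_comm]
      exact congrArg Subtype.val (hsc h4)
    exact h3 _ (hXY x' hx' y hy) _ (hXY x hx y hy)
  have hr : ∀ x ∈ X, ∀ y ∈ Y, ∀ y' ∈ Y, ⁅x, y * y'⁆ = ⁅x, y⁆ * ⁅x, y'⁆ := by
    intro x hx y hy y' hy'
    have h1 : ⁅x, y * y'⁆ = ⁅x, y⁆ * (y * ⁅x, y'⁆ * y⁻¹) := by
      simp only [commutatorElement_def]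
      group
    have h2 : y * ⁅x, y'⁆ * y⁻¹ = ⁅x, y'⁆ := by
      rw [← hAY _ (hXY x hx y' hy') y hy]
      group
    rw [h1, h2]
  -- the quotient
  have hnorm : (N.subgroupOf Y).Normal := by
    constructor
    intro n hn g
    rw [Subgroup.mem_subgroupOf] at hn ⊢
    have h1 : ⁅(g : H), (n : H)⁆ ∈ N := hYY g g.2 n n.2
    have h2 := N.mul_mem h1 hn
    have h3 : ⁅(g : H), (n : H)⁆ * (n : H) = ((g * n * g⁻¹ : Y) : H) := by
      simp only [commutatorElement_def]
      push_cast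
      group
    rw [h3] at h2
    exact h2
  have hcomm : ∀ a b : Y ⧸ N.subgroupOf Y, a * b = b * a := by
    intro a b
    induction a using QuotientGroup.induction_on with
    | H y =>
      induction b using QuotientGroup.induction_on with
      | H y' =>
        rw [← QuotientGroup.mk_mul, ← QuotientGroup.mk_mul, QuotientGroup.eq,
          Subgroup.mem_subgroupOf]
        have h1 : ⁅(y' : H)⁻¹, (y : H)⁻¹⁆ ∈ N := hYY _ (Y.inv_mem y'.2) _ (Y.inv_mem y.2)
        have h2 : ⁅(y' : H)⁻¹, (y : H)⁻¹⁆ = (((y * y')⁻¹ * (y' * y) : Y) : H) := by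
          simp only [commutatorElement_def]
          push_cast
          group
        rw [h2] at h1
        exact h1
  let hQ : CommGroup (Y ⧸ N.subgroupOf Y) :=
    { (inferInstance : Group (Y ⧸ N.subgroupOf Y)) with mul_comm := hcomm }
  obtain ⟨hf, hc⟩ := hHOM (Y ⧸ N.subgroupOf Y) k
  let inner : X → (Y →* kˣ) := fun x => MonoidHom.mk' (fun y => sc ⟨⁅(x : H), (y : H)⁆,
    hXY x x.2 y y.2⟩) (by
      intro y y'
      rw [← map_mul]
      exact congrArg sc (Subtype.ext (hr x x.2 y y.2 y' y'.2)))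
  have hinner : ∀ (x : X) (y : Y), inner x y = sc ⟨⁅(x : H), (y : H)⁆, hXY x x.2 y y.2⟩ :=
    fun _ _ => rfl
  have hker : ∀ (x : X) (n : Y), n ∈ N.subgroupOf Y → inner x n = 1 := by
    intro x n hn
    rw [hinner, ← map_one sc]
    apply congrArg sc
    apply Subtype.ext
    show ⁅(x : H), (n : H)⁆ = 1
    rw [commutatorElement_eq_one_iff_mul_comm]
    exact hNX x x.2 n (Subgroup.mem_subgroupOf.mp hn)
  let lft : X → ((Y ⧸ N.subgroupOf Y) →* kˣ) := fun x =>
    QuotientGroup.lift (N.subgroupOf Y) (inner x) (fun n hn => hker x n hn)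
  have hlft : ∀ (x : X) (y : Y), lft x (QuotientGroup.mk y) = inner x y := fun _ _ => rfl
  let φ : X →* ((Y ⧸ N.subgroupOf Y) →* kˣ) := MonoidHom.mk' lft (by
    intro x x'
    refine MonoidHom.ext (fun q => ?_)
    induction q using QuotientGroup.induction_on with
    | H y =>
      rw [MonoidHom.mul_apply, hlft, hlft, hlft, hinner, hinner, hinner, ← map_mul]
      exact congrArg sc (Subtype.ext (hl x x.2 x' x'.2 y y.2)))
  have hφ : ∀ x : X, φ x = lft x := fun _ => rfl
  have hkerφ : φ.ker = M.subgroupOf X := by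
    ext x
    rw [MonoidHom.mem_ker, Subgroup.mem_subgroupOf, hM x x.2]
    constructor
    · intro h y hy
      have h1 : lft x (QuotientGroup.mk ⟨y, hy⟩) = 1 := by
        rw [← hφ, h]
        rfl
      rw [hlft, hinner, ← map_one sc] at h1
      have h2 := congrArg Subtype.val (hsc h1)
      exact commutatorElement_eq_one_iff_mul_comm.mp h2
    · intro h
      rw [hφ]
      refine MonoidHom.ext (fun q => ?_)
      induction q using QuotientGroup.induction_on with
      | H y =>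
        rw [hlft, hinner]
        have h2 : (⟨⁅(x : H), (y : H)⁆, hXY x x.2 y y.2⟩ : A) = 1 :=
          Subtype.ext (commutatorElement_eq_one_iff_mul_comm.mpr (h y y.2))
        rw [h2, map_one]
        rfl
  have h1 : M.relIndex X = Nat.card φ.range := by
    unfold Subgroup.relIndex
    rw [← hkerφ, Subgroup.index_ker]
  have h2 : Nat.card φ.range ≤ Nat.card ((Y ⧸ N.subgroupOf Y) →* kˣ) :=
    Nat.card_le_card_of_injective Subtype.val Subtype.val_injective
  rw [h1]
  exact le_trans h2 hc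

theorem DU (hK2 : K2_stmt) (hK3 : K3_stmt) (hHOM : HOM_stmt) : DU_stmt := by
  intro k U H _ _ _ _ _ _ _ _ hD S hS W P hAW hWS hP
  obtain ⟨hAn, hCn, hAC, -, -⟩ := hK2 k U H hD
  obtain ⟨hfix, -, -, hcen⟩ := hK3 k U H hD
  have hnt : Nontrivial U := hD.nt
  obtain ⟨u₀, hu₀⟩ := exists_ne (0 : U)
  -- the scalar homomorphism
  have hex : ∀ a : SA k U H, ∃ c : kˣ, ∀ u : U, (a : H) • u = (c : k) • u := fun a => a.2
  choose scf hscf using hex
  have huniq : ∀ (c d : kˣ), (c : k) • u₀ = (d : k) • u₀ → c = d := by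
    intro c d h
    have h1 : ((c : k) - (d : k)) • u₀ = 0 := by
      rw [sub_smul, h, sub_self]
    rcases smul_eq_zero.mp h1 with h2 | h2
    · exact Units.ext (sub_eq_zero.mp h2)
    · exact absurd h2 hu₀
  let sc : SA k U H →* kˣ := MonoidHom.mk' scf (by
    intro a b
    apply huniq
    rw [← hscf, Units.val_mul, mul_smul, ← hscf b, ← hscf a, ← mul_smul]
    rfl)
  have hscinj : Function.Injective sc := by
    intro a b h
    have h1 : scf a = scf b := h
    have h2 : ((a : H)⁻¹ * b) = 1 := by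
      apply hD.faith
      intro u
      rw [mul_smul, hscf b, ← h1, ← hscf a, inv_smul_smul]
    exact Subtype.ext (inv_mul_eq_one.mp h2)
  have hWC : W ≤ SC k U H := le_trans hWS hS.hC
  have hAP : SA k U H ≤ P := by
    intro a ha
    rw [hP]
    exact ⟨hS.hA ha, fun w hw => hcen a ha w (hWC hw)⟩
  have hPS : P ≤ S := fun x hx => ((hP x).mp hx).1
  have h1 : P.relIndex S ≤ (SA k U H).relIndex W := by
    refine DU_key hHOM k H (SA k U H) S W (SA k U H) P sc hscinj ?_ ?_ ?_ hAW ?_ ?_ ?_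
    · intro x hx y hy
      exact hS.comm x hx y (hWS hy)
    · intro a ha x hx
      exact hcen a ha x (hS.hC hx)
    · intro a ha y hy
      exact hcen a ha y (hWC hy)
    · intro x hx n hn
      exact (hcen n hn x (hS.hC hx)).symm
    · intro y hy y' hy'
      exact hS.comm y (hWS hy) y' (hWS hy')
    · intro x hx
      rw [hP]
      exact ⟨fun h => h.2, fun h => ⟨hx, h⟩⟩
  have h2 : (SA k U H).relIndex W ≤ P.relIndex S := by
    refine DU_key hHOM k H (SA k U H) W S P (SA k U H) sc hscinj ?_ ?_ ?_ hPS ?_ ?_ ?_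
    · intro x hx y hy
      exact hS.comm x (hWS hx) y hy
    · intro a ha x hx
      exact hcen a ha x (hWC hx)
    · intro a ha y hy
      exact hcen a ha y (hS.hC hy)
    · intro x hx n hn
      exact (((hP n).mp hn).2 x hx).symm
    · intro y hy y' hy'
      exact hAP (hS.comm y hy y' hy')
    · intro x hx
      exact ⟨fun h y hy => hcen x h y (hS.hC hy), fun h => hS.cent x (hWS hx) h⟩
  rw [le_antisymm h2 h1, mul_comm]
  exact Subgroup.relIndex_mul_relIndex _ _ _ hAP hPS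

end QS
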