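import Pool.Agent.helper4.QS.Spec

/-!
# MP_07c750_an, module EXL: the limit state of the example
-/

open scoped BigOperators ComplexOrder ComplexConjugate Topology

namespace Pool.Agent.QS

open Pool.Agent.helper86.CM Filter

theorem EXL_inv0 {s : ℕ} (hs : 2 ≤ s) (φ : ℕ → ℕ) (hφ : StrictMono φ) :
    Tendsto (fun j : ℕ => (2 : ℝ) / ((s * (φ j + 1) : ℕ) : ℝ)) atTop (𝓝 0) := by
  have h1 : Tendsto (fun j : ℕ => s * (φ j + 1)) atTop atTop := by
    apply tendsto_atTop_mono (f := fun j : ℕ => j)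
    · intro j
      have h2 := hφ.le_apply (x := j)
      nlinarith
    · exact tendsto_id
  have h2 : Tendsto (fun j : ℕ => ((s * (φ j + 1) : ℕ) : ℝ)) atTop atTop :=
    tendsto_natCast_atTop_atTop.comp h1
  exact h2.const_div_atTop 2

/-- EXL. -/
theorem EXL (hSUB : SUB_stmt) (hPDL : PDL_stmt) (hEXM : EXM_stmt) (hEXP : EXP_stmt) : EXL_stmt := by
  intro B t hB b hb s hs
  obtain ⟨P, ρ, hP, hρ, h1, h2⟩ := hEXM B t hB b hb s hs
  have hE : ∀ j : ℕ, PD (hh B t) (EXm B t b s (j + 1)) ∧ EXm B t b s (j + 1) 0 = 1 ∧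
      (∀ x, ‖EXm B t b s (j + 1) x‖ ≤ 1) ∧
      (∀ x : PP, EXm B t b s (j + 1) (x.2, x.1) = EXm B t b s (j + 1) x) ∧
      ∀ x, ‖EXm B t b s (j + 1) (BB B x) - EXm B t b s (j + 1) x‖ ≤
        2 / ((s * (j + 1) : ℕ) : ℝ) := by
    intro j
    exact hEXP B t hB b hb s (j + 1) hs (Nat.le_add_left 1 j)
  obtain ⟨φ, g, hφ, hg⟩ := hSUB PP (fun j x => EXm B t b s (j + 1) x)
    (fun j x => (hE j).2.2.1 x)
  have hφ1 : Tendsto (fun j => φ j + 1) atTop atTop :=
    tendsto_atTop_mono (fun j => Nat.le_succ (φ j)) hφ.tendsto_atTop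
  refine ⟨g, P, ρ, ⟨?_, ?_, ?_, ?_⟩, hP, hρ, ?_, ?_⟩
  · exact hPDL PP (fun _ => hh B t) (hh B t) (fun j => EXm B t b s (φ j + 1)) g
      (fun x y => tendsto_const_nhds) (fun x => hg x) (fun j => (hE (φ j)).1)
  · have h3 := hg 0
    have h4 : (fun j => EXm B t b s (φ j + 1) 0) = fun _ => (1 : ℂ) := by
      funext j
      exact (hE (φ j)).2.1
    rw [h4] at h3
    exact tendsto_nhds_unique h3 tendsto_const_nhds
  · intro x
    have h3 : Tendsto (fun j => EXm B t b s (φ j + 1) (BB B x) - EXm B t b s (φ j + 1) x) atTop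
        (𝓝 (g (BB B x) - g x)) := (hg (BB B x)).sub (hg x)
    have h4 : Tendsto (fun j => EXm B t b s (φ j + 1) (BB B x) - EXm B t b s (φ j + 1) x) atTop
        (𝓝 0) :=
      squeeze_zero_norm (fun j => (hE (φ j)).2.2.2.2 x) (EXL_inv0 hs φ hφ)
    have h5 := tendsto_nhds_unique h3 h4
    exact sub_eq_zero.mp h5
  · intro x
    have h3 := hg (x.2, x.1)
    have h4 : (fun j => EXm B t b s (φ j + 1) (x.2, x.1)) = fun j => EXm B t b s (φ j + 1) x := by
      funext j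
      exact (hE (φ j)).2.2.2.1 x
    rw [h4] at h3
    exact tendsto_nhds_unique h3 (hg x)
  · exact tendsto_nhds_unique (hg (b, 0)) (h1.comp hφ1)
  · intro r r' hr
    exact tendsto_nhds_unique (hg (pw B (r' : ℤ) b - pw B (r : ℤ) b, 0)) ((h2 r r' hr).comp hφ1)

end Pool.Agent.QS
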