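import Pool.Agent.helper32.QS.Spec

set_option autoImplicit false

namespace QS

open scoped BigOperators commutatorElement

theorem GLO_add (V : Type) [AddCommGroup V] [Finite V] (p μ : ℕ) [Fact p.Prime]
    [Module (ZMod p) V] (hcard : Nat.card V = p ^ μ) :
    Nat.card (V ≃+ V) = ∏ j ∈ Finset.range μ, (p ^ μ - p ^ j) := by
  have hp : p.Prime := Fact.out
  have hfin : Module.Finite (ZMod p) V := Module.Finite.of_finite
  have hfr : Module.finrank (ZMod p) V = μ := by
    have h1 := Module.natCard_eq_pow_finrank (K := ZMod p) (V := V)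
    rw [hcard, Nat.card_zmod] at h1
    exact (Nat.pow_right_injective hp.two_le h1).symm
  let b : Module.Basis (Fin μ) (ZMod p) V := Module.finBasisOfFinrankEq (ZMod p) V hfr
  let e2 : (V ≃+ V) ≃ (V ≃ₗ[ZMod p] V) :=
    { toFun := fun f => f.toLinearEquiv (fun c x => ZMod.map_smul f.toAddMonoidHom c x)
      invFun := fun f => f.toAddEquiv
      left_inv := fun f => by ext x; rfl
      right_inv := fun f => by ext x; rfl }
  let e3 : (V ≃ₗ[ZMod p] V) ≃ (Module.End (ZMod p) V)ˣ :=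
    (LinearMap.GeneralLinearGroup.generalLinearEquiv (ZMod p) V).symm.toEquiv
  let e4 : (Module.End (ZMod p) V)ˣ ≃ (Matrix (Fin μ) (Fin μ) (ZMod p))ˣ :=
    (Units.mapEquiv (LinearMap.toMatrixAlgEquiv b).toMulEquiv).toEquiv
  have h5 : Nat.card (V ≃+ V) = Nat.card (Matrix (Fin μ) (Fin μ) (ZMod p))ˣ :=
    Nat.card_congr (e2.trans (e3.trans e4))
  have h6 : Nat.card (Matrix (Fin μ) (Fin μ) (ZMod p))ˣ =
      ∏ i : Fin μ, ((Fintype.card (ZMod p)) ^ μ - (Fintype.card (ZMod p)) ^ (i : ℕ)) :=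
    Matrix.card_GL_field μ
  rw [h5, h6, ZMod.card, Finset.prod_range (fun j => p ^ μ - p ^ j)]

theorem GLO : GLO_stmt := by
  intro M _ _ p μ hp hexp hcard
  have hF : Fact p.Prime := ⟨hp⟩
  have hmod : Module (ZMod p) (Additive M) := AddCommGroup.zmodModule (n := p) (by
    intro x
    exact hexp x.toMul)
  have h1 : Nat.card (Additive M ≃+ Additive M) = ∏ j ∈ Finset.range μ, (p ^ μ - p ^ j) :=
    GLO_add (Additive M) p μ hcard
  have e1 : MulAut M ≃ (Additive M ≃+ Additive M) := MulEquiv.toAdditive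
  rw [Nat.card_congr e1, h1]

end QS
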