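import Pool.Agent.helper32.QS.Spec

set_option autoImplicit false

namespace QS

open scoped BigOperators commutatorElement

theorem SUM_Om (e : ℕ) : Om (e ^ 2) = 2 * Om e := by
  unfold Om
  rcases Nat.eq_zero_or_pos e with h | h
  · subst h
    simp
  · rw [pow_two]
    have h1 := (Nat.perm_primeFactorsList_mul (a := e) (b := e) h.ne' h.ne').length_eq
    rw [List.length_append] at h1
    omega

theorem SUM (hK2 : K2_stmt) (hK3 : K3_stmt) (hSQ : SQ_stmt) (hPK : PK_stmt) (hLI : LI_stmt)
    (hCH : CH_stmt) : SUM_stmt := by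
  intro k U H _ _ _ _ _ _ _ _ hD S hS
  obtain ⟨hAn, hCn, hAC, -, r, s, hr, hs, hk, hH⟩ := hK2 k U H hD
  obtain ⟨-, hAk, -, -⟩ := hK3 k U H hD
  obtain ⟨e, he⟩ := hSQ k U H hD S hS
  have hli := hLI k U H hD S hS
  have hch := hCH k U H hD S hS
  have hne1 : (SA k U H).relIndex S ≠ 1 := by
    intro h
    exact hS.ne (Subgroup.relIndex_eq_one.mp h)
  have hne0 : (SA k U H).relIndex S ≠ 0 := by
    intro h
    have h1 : (SA k U H).relIndex S ≠ 0 := by
      unfold Subgroup.relIndex
      exact Subgroup.index_ne_zero_of_finite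
    exact h1 h
  have he2 : 2 ≤ e := by
    rcases Nat.lt_or_ge e 2 with h | h
    · exfalso
      have h3 : e = 0 ∨ e = 1 := by omega
      rcases h3 with h4 | h4
      · rw [h4] at he
        apply hne0
        rw [he]
        norm_num
      · rw [h4] at he
        apply hne1
        rw [he]
        norm_num
    · exact h
  have hen : e ≤ Module.finrank k U := by
    rw [he] at hli
    exact (Nat.pow_le_pow_iff_left (by norm_num)).mp hli
  have hBd : S.relIndex (SC k U H) * (SA k U H).relIndex S ≤ Bd e := by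
    have h1 : (S.relIndex (SC k U H) * (SA k U H).relIndex S) ^ 2 ≤ (Bd e) ^ 2 := by
      refine le_trans hch (le_of_eq ?_)
      rw [he, SUM_Om]
      unfold Bd
      rw [mul_pow, ← pow_mul, ← pow_mul]
      ring_nf
    exact (Nat.pow_le_pow_iff_left (by norm_num)).mp h1
  have hk2 : 2 ≤ Nat.card k := by
    rw [hk]
    exact le_trans hr.two_le (Nat.le_self_pow (by omega) r)
  have hcA : Nat.card (SA k U H) ≤ Nat.card k - 1 := Nat.le_of_dvd (by omega) hAk
  have hcC : Nat.card (SC k U H) = Nat.card (SA k U H) *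
      ((SA k U H).relIndex S * S.relIndex (SC k U H)) := by
    rw [Subgroup.relIndex_mul_relIndex _ _ _ hS.hA hS.hC]
    have h1 := Subgroup.card_mul_index ((SA k U H).subgroupOf (SC k U H))
    rw [← h1]
    unfold Subgroup.relIndex
    rw [Nat.card_congr (Subgroup.subgroupOfEquivOfLe hAC).toEquiv]
  refine ⟨e, r, s, hr, hs, hk, he, he2, hen, ?_, ?_, Module.natCard_eq_pow_finrank⟩
  · calc Nat.card H ≤ s * Nat.card (SC k U H) := hH
      _ = s * (Nat.card (SA k U H) * (S.relIndex (SC k U H) * (SA k U H).relIndex S)) := by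
        rw [hcC]
        ring
      _ ≤ s * ((Nat.card k - 1) * Bd e) :=
        Nat.mul_le_mul_left s (Nat.mul_le_mul hcA hBd)
      _ = s * (Nat.card k - 1) * Bd e := by ring
  · intro ℓ hℓ hℓe
    refine hPK k U H hD S hS ℓ hℓ ?_
    rw [he, pow_two]
    exact Dvd.dvd.mul_left hℓe e

end QS
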